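import Pool.Agent.H175R2.Defs
import Pool.Agent.H690R3.Lab.Defs

/-!
# Adjacency labels of size `O(k log n)` for the graphs of clique-width at most `k`

Author helper750.  Every set of at least two vertices has a balanced cut with at most `k` types of
neighbourhoods across it; labels are obtained by cutting recursively.
-/

set_option autoImplicit false

namespace Pool.Agent.Y750.CL

open Finset Classical Filter Topology Pool.Agent.H175R2 Pool.Agent.H690R3.Lab

/-! ### Monotonicity of clique-width -/

theorem built_cast {k k' : ℕ} (h : k ≤ k') {W : Type} {G : SimpleGraph W} {l : W → Fin k}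
    (hb : CwBuilt k W G l) : CwBuilt k' W G (fun v => Fin.castLE h (l v)) := by
  induction hb with
  | single i => exact CwBuilt.single _
  | union V W G H l m _ _ ih1 ih2 =>
    have e : (fun v => Fin.castLE h (Sum.elim l m v)) =
        Sum.elim (fun v => Fin.castLE h (l v)) (fun v => Fin.castLE h (m v)) := by
      funext v; cases v <;> rfl
    rw [e]
    exact CwBuilt.union _ _ _ _ _ _ ih1 ih2
  | join V G l i j hij _ ih =>
    have hi := Fin.castLE_injective h
    have := CwBuilt.join V G (fun v => Fin.castLE h (l v)) (Fin.castLE h i) (Fin.castLE h j)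
      (fun e => hij (hi e)) ih
    simpa only [hi.eq_iff] using this
  | relabel V G l i j _ ih =>
    have hi := Fin.castLE_injective h
    have := CwBuilt.relabel V G (fun v => Fin.castLE h (l v)) (Fin.castLE h i) (Fin.castLE h j) ih
    have e : (fun v => Fin.castLE h (if l v = i then j else l v)) =
        (fun v => if Fin.castLE h (l v) = Fin.castLE h i then Fin.castLE h j
          else Fin.castLE h (l v)) := by
      funext v
      simp only [hi.eq_iff]
      split_ifs <;> rfl
    rw [e]
    exact this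

theorem cwLE_mono {V : Type} {G : SimpleGraph V} {k k' : ℕ} (h : k ≤ k') (hG : CwLE G k) :
    CwLE G k' := by
  obtain ⟨W, G', l, hb, he⟩ := hG
  exact ⟨W, G', _, built_cast h hb, he⟩

/-! ### Balanced cuts -/

/-- `C` is cut off with the types `t` in the labelled graph `(G, l)` -/
def Cut {W : Type} {k : ℕ} (G : SimpleGraph W) (l : W → Fin k) (P C : Finset W) : Prop :=
  ∃ t : W → Fin k, ∀ u ∈ C, ∀ u' ∈ C, t u = t u' →
    l u = l u' ∧ ∀ v ∈ P, v ∉ C → (G.Adj u v ↔ G.Adj u' v)

theorem built_cut {k : ℕ} {W : Type} {G : SimpleGraph W} {l : W → Fin k}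
    (hb : CwBuilt k W G l) : ∀ (N : ℕ), 2 ≤ N → ∀ P : Finset W, 2 * N < 3 * P.card →
      ∃ C ⊆ P, N ≤ 3 * C.card ∧ 3 * C.card ≤ 2 * N ∧ Cut G l P C := by
  induction hb with
  | single i =>
    intro N hN P hP
    have : P.card ≤ 1 := by
      have := Finset.card_le_univ P
      simpa using this
    omega
  | union V W G H l m _ _ ih1 ih2 =>
    intro N hN P hP
    set P1 : Finset V := P.preimage Sum.inl Sum.inl_injective.injOn with hP1
    set P2 : Finset W := P.preimage Sum.inr Sum.inr_injective.injOn with hP2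
    have m1 : ∀ v : V, v ∈ P1 ↔ Sum.inl v ∈ P := fun v => by rw [hP1, Finset.mem_preimage]
    have m2 : ∀ v : W, v ∈ P2 ↔ Sum.inr v ∈ P := fun v => by rw [hP2, Finset.mem_preimage]
    have hPe : P = P1.map ⟨Sum.inl, Sum.inl_injective⟩ ∪ P2.map ⟨Sum.inr, Sum.inr_injective⟩ := by
      ext v
      rcases v with v | v
      · simp [m1]
      · simp [m2]
    have hcard : P.card = P1.card + P2.card := by
      rw [hPe, Finset.card_union_of_disjoint, Finset.card_map, Finset.card_map]
      rw [Finset.disjoint_left]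
      intro x hx hx'
      simp only [Finset.mem_map, Function.Embedding.coeFn_mk] at hx hx'
      obtain ⟨a, _, rfl⟩ := hx
      obtain ⟨b, _, hb⟩ := hx'
      exact absurd hb (by simp)
    by_cases h1 : 2 * N < 3 * P1.card
    · obtain ⟨C, hC, c1, c2, t, ht⟩ := ih1 N hN P1 h1
      refine ⟨C.map ⟨Sum.inl, Sum.inl_injective⟩, ?_, by rwa [Finset.card_map],
        by rwa [Finset.card_map], Sum.elim t m, ?_⟩
      · intro x hx
        simp only [Finset.mem_map, Function.Embedding.coeFn_mk] at hx
        obtain ⟨a, ha, rfl⟩ := hx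
        exact (m1 a).1 (hC ha)
      · intro u hu u' hu' htt
        simp only [Finset.mem_map, Function.Embedding.coeFn_mk] at hu hu'
        obtain ⟨a, ha, rfl⟩ := hu
        obtain ⟨b, hb, rfl⟩ := hu'
        obtain ⟨e1, e2⟩ := ht a ha b hb htt
        refine ⟨e1, ?_⟩
        intro v hv hvC
        rcases v with v | v
        · simp only [SimpleGraph.sum_adj_inl]
          refine e2 v ((m1 v).2 hv) (fun hvc => hvC ?_)
          simp only [Finset.mem_map, Function.Embedding.coeFn_mk]
          exact ⟨v, hvc, rfl⟩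
        · simp
    · by_cases h2 : 2 * N < 3 * P2.card
      · obtain ⟨C, hC, c1, c2, t, ht⟩ := ih2 N hN P2 h2
        refine ⟨C.map ⟨Sum.inr, Sum.inr_injective⟩, ?_, by rwa [Finset.card_map],
          by rwa [Finset.card_map], Sum.elim l t, ?_⟩
        · intro x hx
          simp only [Finset.mem_map, Function.Embedding.coeFn_mk] at hx
          obtain ⟨a, ha, rfl⟩ := hx
          exact (m2 a).1 (hC ha)
        · intro u hu u' hu' htt
          simp only [Finset.mem_map, Function.Embedding.coeFn_mk] at hu hu'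
          obtain ⟨a, ha, rfl⟩ := hu
          obtain ⟨b, hb, rfl⟩ := hu'
          obtain ⟨e1, e2⟩ := ht a ha b hb htt
          refine ⟨e1, ?_⟩
          intro v hv hvC
          rcases v with v | v
          · simp
          · simp only [SimpleGraph.sum_adj_inr]
            refine e2 v ((m2 v).2 hv) (fun hvc => hvC ?_)
            simp only [Finset.mem_map, Function.Embedding.coeFn_mk]
            exact ⟨v, hvc, rfl⟩
      · by_cases h3 : P2.card ≤ P1.card
        · refine ⟨P1.map ⟨Sum.inl, Sum.inl_injective⟩, ?_, by rw [Finset.card_map]; omega,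
            by rw [Finset.card_map]; omega, Sum.elim l m, ?_⟩
          · rw [hPe]; exact Finset.subset_union_left
          · intro u hu u' hu' htt
            simp only [Finset.mem_map, Function.Embedding.coeFn_mk] at hu hu'
            obtain ⟨a, ha, rfl⟩ := hu
            obtain ⟨b, hb, rfl⟩ := hu'
            refine ⟨htt, ?_⟩
            intro v hv hvC
            rcases v with v | v
            · exfalso
              apply hvC
              simp only [Finset.mem_map, Function.Embedding.coeFn_mk]
              exact ⟨v, (m1 v).2 hv, rfl⟩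
            · simp
        · refine ⟨P2.map ⟨Sum.inr, Sum.inr_injective⟩, ?_, by rw [Finset.card_map]; omega,
            by rw [Finset.card_map]; omega, Sum.elim l m, ?_⟩
          · rw [hPe]; exact Finset.subset_union_right
          · intro u hu u' hu' htt
            simp only [Finset.mem_map, Function.Embedding.coeFn_mk] at hu hu'
            obtain ⟨a, ha, rfl⟩ := hu
            obtain ⟨b, hb, rfl⟩ := hu'
            refine ⟨htt, ?_⟩
            intro v hv hvC
            rcases v with v | v
            · simp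
            · exfalso
              apply hvC
              simp only [Finset.mem_map, Function.Embedding.coeFn_mk]
              exact ⟨v, (m2 v).2 hv, rfl⟩
  | join V G l i j hij _ ih =>
    intro N hN P hP
    obtain ⟨C, hC, c1, c2, t, ht⟩ := ih N hN P hP
    refine ⟨C, hC, c1, c2, t, ?_⟩
    intro u hu u' hu' htt
    obtain ⟨e1, e2⟩ := ht u hu u' hu' htt
    refine ⟨e1, ?_⟩
    intro v hv hvC
    have hne : u ≠ v := fun h => hvC (h ▸ hu)
    have hne' : u' ≠ v := fun h => hvC (h ▸ hu')
    simp only [SimpleGraph.sup_adj, SimpleGraph.fromRel_adj, e2 v hv hvC, e1, ne_eq, hne, hne']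
  | relabel V G l i j _ ih =>
    intro N hN P hP
    obtain ⟨C, hC, c1, c2, t, ht⟩ := ih N hN P hP
    refine ⟨C, hC, c1, c2, t, ?_⟩
    intro u hu u' hu' htt
    obtain ⟨e1, e2⟩ := ht u hu u' hu' htt
    exact ⟨by simp only [e1], e2⟩

/-! ### The decoder -/

/-- the test at the level where the labels separate -/
def sel (k : ℕ) (a b : List Bool) : Bool :=
  decide (∃ i : Fin k, a.getD (i.val + 1) false = true ∧ b.getD (i.val + 1) false = true)

/-- the decoder with fuel -/
def dec (k : ℕ) : ℕ → List Bool → List Bool → Bool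
  | 0, _, _ => false
  | n + 1, a, b =>
    if a.headD false = b.headD false then dec k n (a.drop (k + 1)) (b.drop (k + 1))
    else sel k a b

theorem getD_rec {k : ℕ} (x : Bool) (f : Fin k → Bool) (r : List Bool) (i : Fin k) :
    (x :: (List.ofFn f ++ r)).getD (i.val + 1) false = f i := by
  rw [List.getD_cons_succ, List.getD_append _ _ _ _ (by simp)]
  simp [List.getD_eq_getElem?_getD]

theorem drop_rec {k : ℕ} (x : Bool) (f : Fin k → Bool) (r : List Bool) :
    (x :: (List.ofFn f ++ r)).drop (k + 1) = r := by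
  rw [List.drop_succ_cons]
  exact List.drop_left' (by simp)

theorem sel_rec {k : ℕ} (x y : Bool) (f g : Fin k → Bool) (r s : List Bool) :
    sel k (x :: (List.ofFn f ++ r)) (y :: (List.ofFn g ++ s)) = true ↔
      ∃ i, f i = true ∧ g i = true := by
  unfold sel
  rw [decide_eq_true_iff]
  simp only [getD_rec]

theorem dec_same {k : ℕ} (n : ℕ) (x : Bool) (f g : Fin k → Bool) (r s : List Bool) :
    dec k (n + 1) (x :: (List.ofFn f ++ r)) (x :: (List.ofFn g ++ s)) = dec k n r s := by
  have h : dec k (n + 1) (x :: (List.ofFn f ++ r)) (x :: (List.ofFn g ++ s)) =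
      dec k n ((x :: (List.ofFn f ++ r)).drop (k + 1)) ((x :: (List.ofFn g ++ s)).drop (k + 1)) :=
    if_pos rfl
  rw [h, drop_rec, drop_rec]

theorem dec_diff {k : ℕ} (n : ℕ) (x y : Bool) (hxy : x ≠ y) (f g : Fin k → Bool)
    (r s : List Bool) :
    dec k (n + 1) (x :: (List.ofFn f ++ r)) (y :: (List.ofFn g ++ s)) = true ↔
      ∃ i, f i = true ∧ g i = true := by
  have h : dec k (n + 1) (x :: (List.ofFn f ++ r)) (y :: (List.ofFn g ++ s)) =
      sel k (x :: (List.ofFn f ++ r)) (y :: (List.ofFn g ++ s)) := if_neg hxy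
  rw [h, sel_rec]

/-- the recursive labelling -/
theorem labels {k : ℕ} {W : Type} {G : SimpleGraph W} {l : W → Fin k} (hb : CwBuilt k W G l) :
    ∀ (j : ℕ) (P : Finset W), 2 ^ j * P.card ≤ 3 ^ j → ∃ ℓ : W → List Bool,
      (∀ v, (ℓ v).length ≤ (k + 1) * j) ∧
      ∀ u ∈ P, ∀ v ∈ P, u ≠ v → ∀ n, (ℓ u).length ≤ n → (G.Adj u v ↔ dec k n (ℓ u) (ℓ v) = true) := by
  intro j
  induction j with
  | zero =>
    intro P hP
    refine ⟨fun _ => [], fun _ => by simp, ?_⟩
    intro u hu v hv huv
    exfalso
    have : P.card ≤ 1 := by simpa using hP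
    exact huv (Finset.card_le_one.1 this u hu v hv)
  | succ j ih =>
    intro P hP
    by_cases hc : P.card ≤ 1
    · refine ⟨fun _ => [], fun _ => by simp, ?_⟩
      intro u hu v hv huv
      exact absurd (Finset.card_le_one.1 hc u hu v hv) huv
    · push Not at hc
      obtain ⟨C, hCP, c1, c2, t, ht⟩ := built_cut hb P.card hc P (by omega)
      have hdiff : (P \ C).card = P.card - C.card := Finset.card_sdiff_of_subset hCP
      have hle : C.card ≤ P.card := Finset.card_le_card hCP
      have b1 : 2 ^ j * C.card ≤ 3 ^ j := by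
        have h1 : 2 ^ j * (3 * C.card) ≤ 2 ^ j * (2 * P.card) := Nat.mul_le_mul_left _ c2
        have h2 : 2 ^ j * (2 * P.card) ≤ 3 * 3 ^ j := by
          calc 2 ^ j * (2 * P.card) = 2 ^ (j + 1) * P.card := by ring
            _ ≤ 3 ^ (j + 1) := hP
            _ = 3 * 3 ^ j := by ring
        have h3 : 3 * (2 ^ j * C.card) ≤ 3 * 3 ^ j := by
          calc 3 * (2 ^ j * C.card) = 2 ^ j * (3 * C.card) := by ring
            _ ≤ _ := h1.trans h2
        exact Nat.le_of_mul_le_mul_left h3 (by norm_num)
      have b2 : 2 ^ j * (P \ C).card ≤ 3 ^ j := by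
        have h0 : 3 * (P \ C).card ≤ 2 * P.card := by omega
        have h1 : 2 ^ j * (3 * (P \ C).card) ≤ 2 ^ j * (2 * P.card) := Nat.mul_le_mul_left _ h0
        have h2 : 2 ^ j * (2 * P.card) ≤ 3 * 3 ^ j := by
          calc 2 ^ j * (2 * P.card) = 2 ^ (j + 1) * P.card := by ring
            _ ≤ 3 ^ (j + 1) := hP
            _ = 3 * 3 ^ j := by ring
        have h3 : 3 * (2 ^ j * (P \ C).card) ≤ 3 * 3 ^ j := by
          calc 3 * (2 ^ j * (P \ C).card) = 2 ^ j * (3 * (P \ C).card) := by ring
            _ ≤ _ := h1.trans h2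
        exact Nat.le_of_mul_le_mul_left h3 (by norm_num)
      obtain ⟨ℓ1, l1, d1⟩ := ih C b1
      obtain ⟨ℓ2, l2, d2⟩ := ih (P \ C) b2
      let r1 : W → Fin k → Bool := fun v i => decide (t v = i)
      let r2 : W → Fin k → Bool := fun v i => decide (∃ u ∈ C, t u = i ∧ G.Adj u v)
      let ℓ : W → List Bool := fun v => if v ∈ C then true :: (List.ofFn (r1 v) ++ ℓ1 v)
        else false :: (List.ofFn (r2 v) ++ ℓ2 v)
      have hℓ1 : ∀ v ∈ C, ℓ v = true :: (List.ofFn (r1 v) ++ ℓ1 v) := fun v hv => if_pos hv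
      have hℓ2 : ∀ v, v ∉ C → ℓ v = false :: (List.ofFn (r2 v) ++ ℓ2 v) := fun v hv => if_neg hv
      have cross : ∀ u ∈ C, ∀ v ∈ P, v ∉ C →
          (G.Adj u v ↔ ∃ i, r1 u i = true ∧ r2 v i = true) := by
        intro u hu v hv hvC
        simp only [r1, r2, decide_eq_true_iff]
        constructor
        · intro h
          exact ⟨t u, rfl, u, hu, rfl, h⟩
        · rintro ⟨i, h1, u', hu', h2, h3⟩
          exact ((ht u' hu' u hu (h2.trans h1.symm)).2 v hv hvC).1 h3
      refine ⟨ℓ, ?_, ?_⟩
      · intro v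
        by_cases hv : v ∈ C
        · rw [hℓ1 v hv]
          have := l1 v
          simp only [List.length_cons, List.length_append, List.length_ofFn]
          calc k + (ℓ1 v).length + 1 ≤ k + (k + 1) * j + 1 := by omega
            _ = (k + 1) * (j + 1) := by ring
        · rw [hℓ2 v hv]
          have := l2 v
          simp only [List.length_cons, List.length_append, List.length_ofFn]
          calc k + (ℓ2 v).length + 1 ≤ k + (k + 1) * j + 1 := by omega
            _ = (k + 1) * (j + 1) := by ring
      · intro u hu v hv huv n hn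
        by_cases huC : u ∈ C <;> by_cases hvC : v ∈ C
        · rw [hℓ1 u huC] at hn ⊢
          rw [hℓ1 v hvC]
          simp only [List.length_cons, List.length_append, List.length_ofFn] at hn
          obtain ⟨n, rfl⟩ : ∃ n', n = n' + 1 := ⟨n - 1, by omega⟩
          rw [dec_same]
          exact d1 u huC v hvC huv n (by omega)
        · rw [hℓ1 u huC] at hn ⊢
          rw [hℓ2 v hvC]
          simp only [List.length_cons, List.length_append, List.length_ofFn] at hn
          obtain ⟨n, rfl⟩ : ∃ n', n = n' + 1 := ⟨n - 1, by omega⟩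
          rw [dec_diff _ _ _ (by simp)]
          exact cross u huC v hv hvC
        · rw [hℓ2 u huC] at hn ⊢
          rw [hℓ1 v hvC]
          simp only [List.length_cons, List.length_append, List.length_ofFn] at hn
          obtain ⟨n, rfl⟩ : ∃ n', n = n' + 1 := ⟨n - 1, by omega⟩
          rw [dec_diff _ _ _ (by simp), G.adj_comm, cross v hvC u hu huC]
          exact exists_congr (fun i => and_comm)
        · rw [hℓ2 u huC] at hn ⊢
          rw [hℓ2 v hvC]
          simp only [List.length_cons, List.length_append, List.length_ofFn] at hn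
          obtain ⟨n, rfl⟩ : ∃ n', n = n' + 1 := ⟨n - 1, by omega⟩
          rw [dec_same]
          exact d2 u (Finset.mem_sdiff.2 ⟨hu, huC⟩) v (Finset.mem_sdiff.2 ⟨hv, hvC⟩) huv n (by omega)

/-- the labelling scheme for the graphs of clique-width at most `k` -/
theorem scheme (k : ℕ) : HasScheme (fun _ G => CwLE G k)
    (fun n => ((k : ℝ) + 1) * (⌈Real.logb (3 / 2) n⌉₊ : ℝ)) := by
  refine ⟨fun a b => dec k a.length a b, ?_⟩
  rintro V _ G ⟨W, G', l, hb, ⟨e⟩⟩
  set n := Fintype.card V with hn
  set j := ⌈Real.logb (3 / 2) n⌉₊ with hj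
  set P : Finset W := Finset.univ.map e.toEquiv.toEmbedding with hP
  have hPc : P.card = n := by rw [hP, Finset.card_map, Finset.card_univ]
  have hle : 2 ^ j * P.card ≤ 3 ^ j := by
    rw [hPc]
    rcases Nat.eq_zero_or_pos n with h0 | h0
    · rw [h0]; simp
    · have h1 : (n : ℝ) ≤ (3 / 2 : ℝ) ^ j := by
        have h2 : Real.logb (3 / 2) n ≤ j := Nat.le_ceil _
        have h3 : (0 : ℝ) < n := by exact_mod_cast h0
        rw [Real.logb_le_iff_le_rpow (by norm_num) h3] at h2
        rwa [Real.rpow_natCast] at h2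
      have h4 : (2 : ℝ) ^ j * n ≤ 3 ^ j := by
        calc (2 : ℝ) ^ j * n ≤ 2 ^ j * (3 / 2 : ℝ) ^ j := mul_le_mul_of_nonneg_left h1 (by positivity)
          _ = 3 ^ j := by rw [← mul_pow]; norm_num
      exact_mod_cast h4
  obtain ⟨ℓ, h1, h2⟩ := labels hb j P hle
  refine ⟨fun v => ℓ (e v), fun v => ?_, fun u v huv => ?_⟩
  · have h5 : ((ℓ (e v)).length : ℝ) ≤ (((k + 1) * j : ℕ) : ℝ) := by exact_mod_cast h1 (e v)
    have e5 : (((k + 1) * j : ℕ) : ℝ) = ((k : ℝ) + 1) * (j : ℝ) := by push_cast; ring
    rw [e5] at h5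
    exact h5
  · rw [← e.map_adj_iff]
    refine h2 (e u) ?_ (e v) ?_ (fun h => huv (e.injective h)) _ le_rfl
    · rw [hP, Finset.mem_map]; exact ⟨u, Finset.mem_univ _, rfl⟩
    · rw [hP, Finset.mem_map]; exact ⟨v, Finset.mem_univ _, rfl⟩

theorem hasScheme_mono {C : ∀ V : Type, SimpleGraph V → Prop} {f g : ℕ → ℝ}
    (h : HasScheme C f) (hfg : ∀ n, 1 ≤ n → f n ≤ g n) : HasScheme C g := by
  obtain ⟨D, hD⟩ := h
  refine ⟨D, fun V _ G hG => ?_⟩
  obtain ⟨ℓ, h1, h2⟩ := hD V G hG
  refine ⟨ℓ, fun v => (h1 v).trans (hfg _ ?_), h2⟩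
  exact Fintype.card_pos_iff.2 ⟨v⟩

/-- **Upper bound**: leading constant `(k + 1) / log₂ (3/2)` -/
theorem upper (k : ℕ) :
    HasSchemeOfSize (fun _ G => CwLE G k) (((k : ℝ) + 1) / Real.logb 2 (3 / 2)) := by
  have hL : 0 < Real.logb 2 (3 / 2) := Real.logb_pos (by norm_num) (by norm_num)
  refine ⟨fun n => if n ≤ 1 then 0 else ((k : ℝ) + 1) / Real.logb 2 n, ?_, ?_⟩
  · have h1 : Tendsto (fun n : ℕ => ((k : ℝ) + 1) / Real.logb 2 n) atTop (𝓝 0) := by
      apply Tendsto.const_div_atTop
      exact (Real.tendsto_logb_atTop (by norm_num)).comp tendsto_natCast_atTop_atTop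
    refine h1.congr' ?_
    filter_upwards [eventually_gt_atTop 1] with n hn
    rw [if_neg (by omega)]
  · refine hasScheme_mono (scheme k) (fun n hn => ?_)
    show ((k : ℝ) + 1) * (⌈Real.logb (3 / 2) n⌉₊ : ℝ) ≤ (((k : ℝ) + 1) / Real.logb 2 (3 / 2) +
      (if n ≤ 1 then 0 else ((k : ℝ) + 1) / Real.logb 2 n)) * Real.logb 2 n
    rcases Nat.lt_or_ge 1 n with h | h
    · rw [if_neg (by omega)]
      have hn1 : (1 : ℝ) < n := by exact_mod_cast h
      have hln : 0 < Real.logb 2 n := Real.logb_pos (by norm_num) hn1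
      have e1 : Real.logb (3 / 2) n = Real.logb 2 n / Real.logb 2 (3 / 2) := by
        rw [Real.logb, Real.logb, Real.logb]
        have : Real.log 2 ≠ 0 := (Real.log_pos (by norm_num)).ne'
        field_simp
      have h3 : 0 ≤ Real.logb (3 / 2) n := Real.logb_nonneg (by norm_num) hn1.le
      have h2 : (⌈Real.logb (3 / 2) n⌉₊ : ℝ) ≤ Real.logb (3 / 2) n + 1 :=
        (Nat.ceil_lt_add_one h3).le
      calc ((k : ℝ) + 1) * (⌈Real.logb (3 / 2) n⌉₊ : ℝ)
          ≤ ((k : ℝ) + 1) * (Real.logb (3 / 2) n + 1) :=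
            mul_le_mul_of_nonneg_left h2 (by positivity)
        _ = (((k : ℝ) + 1) / Real.logb 2 (3 / 2) + ((k : ℝ) + 1) / Real.logb 2 n) *
            Real.logb 2 n := by
            rw [e1]
            field_simp
    · have h1 : n = 1 := by omega
      subst h1
      simp

end Pool.Agent.Y750.CL
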